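import Pool.Agent.W871.HI.Stm3

/-!
# HI-SYM: symmetry
-/

set_option autoImplicit false

open Finset

namespace Pool.Agent.W101.HI

open Pool.Agent.W871.HI

noncomputable section

theorem pairP_symm {A : Type*} [CommRing A] [Algebra R A] (a b : A) (l m : ℕ) :
    pairP a b l m = pairP b a m l := by
  unfold pairP
  rw [Nat.gcd_comm, Nat.lcm_comm]
  ring

theorem prod_pairs_eq {M : Type*} [CommMonoid M] (k : ℕ) (F : Fin k → Fin k → M) :
    ∏ i, ∏ j ∈ Ioi i, F i j = ∏ p ∈ (univ : Finset (Fin k × Fin k)) with p.1 < p.2, F p.1 p.2 := by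
  rw [Finset.prod_filter, Fintype.prod_prod_type]
  refine Finset.prod_congr rfl fun i _ => ?_
  rw [← Finset.prod_filter]
  refine Finset.prod_congr ?_ fun _ _ => rfl
  ext j; simp

theorem prod_pairs_perm {M : Type*} [CommMonoid M] (k : ℕ) (F : Fin k → Fin k → M)
    (hF : ∀ i j, F i j = F j i) (e : Equiv.Perm (Fin k)) :
    ∏ i, ∏ j ∈ Ioi i, F (e i) (e j) = ∏ i, ∏ j ∈ Ioi i, F i j := by
  rw [prod_pairs_eq k (fun i j => F (e i) (e j)), prod_pairs_eq]
  refine Finset.prod_nbij' (fun p => if e p.1 < e p.2 then (e p.1, e p.2) else (e p.2, e p.1))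
    (fun p => if e.symm p.1 < e.symm p.2 then (e.symm p.1, e.symm p.2)
      else (e.symm p.2, e.symm p.1)) ?_ ?_ ?_ ?_ ?_
  · intro p hp
    rw [Finset.mem_filter] at hp ⊢
    refine ⟨Finset.mem_univ _, ?_⟩
    have hne : e p.1 ≠ e p.2 := fun h => (ne_of_lt hp.2) (e.injective h)
    by_cases h : e p.1 < e p.2
    · simp only [h, if_true]
    · simp only [h, if_false]
      exact lt_of_le_of_ne (not_lt.1 h) hne.symm
  · intro p hp
    rw [Finset.mem_filter] at hp ⊢
    refine ⟨Finset.mem_univ _, ?_⟩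
    have hne : e.symm p.1 ≠ e.symm p.2 := fun h => (ne_of_lt hp.2) (e.symm.injective h)
    by_cases h : e.symm p.1 < e.symm p.2
    · simp only [h, if_true]
    · simp only [h, if_false]
      exact lt_of_le_of_ne (not_lt.1 h) hne.symm
  · intro p hp
    rw [Finset.mem_filter] at hp
    by_cases h : e p.1 < e p.2
    · simp [h, hp.2]
    · simp [h, not_lt.2 hp.2.le]
  · intro p hp
    rw [Finset.mem_filter] at hp
    by_cases h : e.symm p.1 < e.symm p.2
    · simp [h, hp.2]
    · simp [h, not_lt.2 hp.2.le]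
  · intro p _
    by_cases h : e p.1 < e p.2
    · simp [h]
    · simp only [h, if_false]
      exact hF _ _

theorem map_pairP {A B : Type*} [CommRing A] [Algebra R A] [CommRing B] [Algebra R B]
    (f : A →ₐ[R] B) (a b : A) (l m : ℕ) : f (pairP a b l m) = pairP (f a) (f b) l m := by
  unfold pairP
  simp [map_pow, map_mul, map_add]

theorem rename_P (S : ℕ → Polynomial R) (k : ℕ) (m : Fin k → ℕ) (e : Equiv.Perm (Fin k)) :
    MvPolynomial.rename e (P S k (m ∘ e)) = P S k m := by
  unfold P
  rw [map_mul, map_prod, map_prod]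
  congr 1
  · rw [← Equiv.prod_comp e (fun i => Polynomial.aeval (MvPolynomial.X i : MvPolynomial (Fin k) R)
      (S (m i)))]
    refine Finset.prod_congr rfl fun i _ => ?_
    rw [← Polynomial.aeval_algHom_apply, MvPolynomial.rename_X]
    rfl
  · rw [← prod_pairs_perm k (fun i j => pairP (MvPolynomial.X i : MvPolynomial (Fin k) R)
      (MvPolynomial.X j) (m i) (m j)) (fun i j => pairP_symm _ _ _ _) e]
    refine Finset.prod_congr rfl fun i _ => ?_
    rw [map_prod]
    refine Finset.prod_congr rfl fun j _ => ?_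
    rw [map_pairP, MvPolynomial.rename_X, MvPolynomial.rename_X]
    rfl

theorem sym : S_sym := by
  intro S k m d e
  unfold co
  rw [← rename_P S k m e]
  have h1 := MvPolynomial.coeff_rename_mapDomain (e : Fin k → Fin k) e.injective
    (P S k (m ∘ e)) (Finsupp.equivFunOnFinite.symm (d ∘ e))
  rw [← h1]
  congr 1
  ext i
  obtain ⟨j, rfl⟩ := e.surjective i
  rw [Finsupp.mapDomain_apply e.injective]
  simp

end

end Pool.Agent.W101.HI
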