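import Pool.Agent.W101.HI.Coef
import Pool.Agent.W101.HI.Sym

/-!
# HI-X: expansion in the first variable
-/

set_option autoImplicit false

open Finset

namespace Pool.Agent.W101.HI

open Pool.Agent.W871.HI

noncomputable section

section dat3
variable {A : Type*} [CommRing A]

/-- constant coefficient `1`, linear coefficient `c`, quadratic coefficient `g` -/
def Dat3 (p : Polynomial A) (c g : A) : Prop := p.coeff 0 = 1 ∧ p.coeff 1 = c ∧ p.coeff 2 = g

theorem Dat3.mul {p q : Polynomial A} {c g c' g' : A} (h : Dat3 p c g) (h' : Dat3 q c' g') :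
    Dat3 (p * q) (c + c') (g + g' + c * c') := by
  obtain ⟨h0, h1, h2⟩ := h
  obtain ⟨k0, k1, k2⟩ := h'
  refine ⟨by rw [Polynomial.mul_coeff_zero, h0, k0, one_mul], ?_, ?_⟩
  · rw [Polynomial.mul_coeff_one, h0, k0, h1, k1]; ring
  · rw [coeff_mul_two, h0, k0, h1, k1, h2, k2]; ring

theorem Dat3.one : Dat3 (1 : Polynomial A) 0 0 := by
  refine ⟨by simp, by simp [Polynomial.coeff_one], by simp [Polynomial.coeff_one]⟩

theorem Dat3.powlin (r : A) (N : ℕ) :
    Dat3 ((1 + Polynomial.C r * Polynomial.X) ^ N) (N * r) ((N.choose 2 : ℕ) * r ^ 2) := by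
  induction N with
  | zero => simpa using (Dat3.one (A := A))
  | succ N ih =>
    rw [pow_succ]
    have h1 : Dat3 (1 + Polynomial.C r * Polynomial.X) r 0 := by
      refine ⟨by simp, by simp [Polynomial.coeff_one], ?_⟩
      simp [Polynomial.coeff_one]
    have := ih.mul h1
    convert this using 1
    · push_cast; ring
    · rw [Nat.choose_succ_succ' N 1, Nat.choose_one_right]
      push_cast; ring

theorem Dat3.powquad (r : A) (N : ℕ) :
    Dat3 ((1 + Polynomial.C r * Polynomial.X ^ 2) ^ N) 0 (N * r) := by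
  induction N with
  | zero => simpa using (Dat3.one (A := A))
  | succ N ih =>
    rw [pow_succ]
    have h1 : Dat3 (1 + Polynomial.C r * Polynomial.X ^ 2) 0 r := by
      refine ⟨by simp, ?_, ?_⟩
      · simp [Polynomial.coeff_one, Polynomial.coeff_X_pow]
      · simp [Polynomial.coeff_one, Polynomial.coeff_X_pow]
    have := ih.mul h1
    convert this using 1
    · ring
    · push_cast; ring

theorem Dat3.powhigh (r : A) (e N : ℕ) (he : 3 ≤ e) :
    Dat3 ((1 + Polynomial.C r * Polynomial.X ^ e) ^ N) 0 0 := by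
  induction N with
  | zero => simpa using (Dat3.one (A := A))
  | succ N ih =>
    rw [pow_succ]
    have h1 : Dat3 (1 + Polynomial.C r * Polynomial.X ^ e) 0 0 := by
      refine ⟨?_, ?_, ?_⟩
      · simp [Polynomial.coeff_one, Polynomial.coeff_X_pow]; omega
      · simp only [Polynomial.coeff_add, Polynomial.coeff_one, Polynomial.coeff_C_mul,
          Polynomial.coeff_X_pow]
        rw [if_neg (by norm_num), if_neg (by omega)]; simp
      · simp only [Polynomial.coeff_add, Polynomial.coeff_one, Polynomial.coeff_C_mul,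
          Polynomial.coeff_X_pow]
        rw [if_neg (by norm_num), if_neg (by omega)]; simp
    have := ih.mul h1
    convert this using 1 <;> ring

theorem Dat3.prodFin (k : ℕ) (p : Fin k → Polynomial A) (c g : Fin k → A)
    (h : ∀ i, Dat3 (p i) (c i) (g i)) :
    Dat3 (∏ i, p i) (∑ i, c i) (∑ i, g i + ∑ i, ∑ j ∈ Ioi i, c i * c j) := by
  induction k with
  | zero => simpa using (Dat3.one (A := A))
  | succ k ih =>
    rw [Fin.prod_univ_succ, Fin.sum_univ_succ, Fin.sum_univ_succ, Fin.sum_univ_succ]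
    have := (h 0).mul (ih (fun i => p i.succ) (fun i => c i.succ) (fun i => g i.succ)
      (fun i => h i.succ))
    convert this using 1
    simp only [Fin.sum_Ioi_zero, Fin.sum_Ioi_succ]
    rw [Finset.mul_sum]
    ring

end dat3

/-- linear coefficient of a pair factor -/
def q1 (l : ℕ) {k : ℕ} (m : Fin k → ℕ) (j : Fin k) : MvPolynomial (Fin k) R :=
  if m j ∣ l then MvPolynomial.monomial (Finsupp.single j (l / m j)) ((m j : R) * x ^ l) else 0

/-- quadratic coefficient of a pair factor -/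
def q2 (l : ℕ) {k : ℕ} (m : Fin k → ℕ) (j : Fin k) : MvPolynomial (Fin k) R :=
  if m j ∣ l then MvPolynomial.monomial (Finsupp.single j (2 * l / m j))
    ((((m j).choose 2 : ℕ) : R) * x ^ (2 * l))
  else if m j ∣ 2 * l then MvPolynomial.monomial (Finsupp.single j (2 * l / m j))
    (((m j / 2 : ℕ) : R) * x ^ (2 * l)) else 0

theorem mon_eq {k : ℕ} (j : Fin k) (n e : ℕ) (r : R) :
    (n : MvPolynomial (Fin k) R) * (algebraMap R (MvPolynomial (Fin k) R) r *
      MvPolynomial.X j ^ e) = MvPolynomial.monomial (Finsupp.single j e) ((n : R) * r) := by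
  rw [MvPolynomial.algebraMap_eq, MvPolynomial.X_pow_eq_monomial, MvPolynomial.C_mul_monomial,
    mul_one]
  have : (n : MvPolynomial (Fin k) R) = MvPolynomial.C (n : R) := by simp
  rw [this, MvPolynomial.C_mul_monomial]

theorem dat3_pair (l : ℕ) {k : ℕ} (m : Fin k → ℕ) (j : Fin k) (hm : 1 ≤ m j) :
    Dat3 (pairP (Polynomial.X : Polynomial (MvPolynomial (Fin k) R))
      (Polynomial.C (MvPolynomial.X j)) l (m j)) (q1 l m j) (q2 l m j) := by
  unfold pairP
  set e := m j / Nat.gcd l (m j) with he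
  have hbase : (1 + algebraMap R (Polynomial (MvPolynomial (Fin k) R)) (x ^ Nat.lcm l (m j)) *
      Polynomial.X ^ e * Polynomial.C (MvPolynomial.X j) ^ (l / Nat.gcd l (m j)) :
        Polynomial (MvPolynomial (Fin k) R)) =
      1 + Polynomial.C (algebraMap R (MvPolynomial (Fin k) R) (x ^ Nat.lcm l (m j)) *
        MvPolynomial.X j ^ (l / Nat.gcd l (m j))) * Polynomial.X ^ e := by
    have h1 : algebraMap R (Polynomial (MvPolynomial (Fin k) R)) (x ^ Nat.lcm l (m j)) =
      Polynomial.C (algebraMap R (MvPolynomial (Fin k) R) (x ^ Nat.lcm l (m j))) := rfl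
    rw [h1, map_mul Polynomial.C, map_pow Polynomial.C]
    ring
  rw [hbase]
  unfold q1 q2
  by_cases h1 : m j ∣ l
  · obtain ⟨a1, a2, a3, a4⟩ := ar1 hm h1
    rw [he, a2, a3, a4, a1, pow_one, if_pos h1, if_pos h1]
    have h3 := Dat3.powlin (algebraMap R (MvPolynomial (Fin k) R) (x ^ l) *
      MvPolynomial.X j ^ (l / m j)) (m j)
    convert h3 using 1
    · rw [mon_eq]
    · have e1 : (algebraMap R (MvPolynomial (Fin k) R) (x ^ l) *
          MvPolynomial.X j ^ (l / m j)) ^ 2 = algebraMap R (MvPolynomial (Fin k) R) (x ^ (2 * l)) *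
          MvPolynomial.X j ^ (2 * l / m j) := by
        rw [mul_pow, ← map_pow, ← pow_mul, ← pow_mul, mul_comm l 2, mul_comm (l / m j) 2,
          Nat.mul_div_assoc 2 h1]
      rw [e1, mon_eq]
  · by_cases h2 : m j ∣ 2 * l
    · obtain ⟨a1, a2, a3, a4, a5⟩ := ar2 hm h2 h1
      rw [he, a2, a3, a4, a1, if_neg h1, if_neg h1, if_pos h2]
      have h3 := Dat3.powquad (algebraMap R (MvPolynomial (Fin k) R) (x ^ (2 * l)) *
        MvPolynomial.X j ^ (2 * l / m j)) (m j / 2)
      convert h3 using 1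
      rw [mon_eq]
    · have a3 := ar3 hm h2
      rw [if_neg h1, if_neg h1, if_neg h2]
      exact Dat3.powhigh _ _ _ (by rw [he]; exact a3)

theorem cons_eq {k : ℕ} (c : ℕ) (d : Fin k → ℕ) :
    (Finsupp.equivFunOnFinite.symm (Fin.cons c d : Fin (k + 1) → ℕ)) =
      Finsupp.cons c (Finsupp.equivFunOnFinite.symm d) := by
  ext i
  refine Fin.cases ?_ (fun j => ?_) i
  · simp
  · simp

/-- the polynomial in the first variable -/
def QQ (S : ℕ → Polynomial R) (l : ℕ) {k : ℕ} (m : Fin k → ℕ) :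
    Polynomial (MvPolynomial (Fin k) R) :=
  Polynomial.aeval (Polynomial.X : Polynomial (MvPolynomial (Fin k) R)) (S l) *
    ∏ j, pairP (Polynomial.X : Polynomial (MvPolynomial (Fin k) R))
      (Polynomial.C (MvPolynomial.X j)) l (m j)

theorem map_pairP_C {k : ℕ} (a b : MvPolynomial (Fin k) R) (l m : ℕ) :
    pairP (Polynomial.C a) (Polynomial.C b) l m = Polynomial.C (pairP a b l m) := by
  unfold pairP
  have h1 : algebraMap R (Polynomial (MvPolynomial (Fin k) R)) (x ^ Nat.lcm l m) =
      Polynomial.C (algebraMap R (MvPolynomial (Fin k) R) (x ^ Nat.lcm l m)) := rfl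
  rw [h1]
  simp only [map_pow, map_add, map_mul, map_one]

theorem finSucc_P (S : ℕ → Polynomial R) (l : ℕ) {k : ℕ} (m : Fin k → ℕ) :
    MvPolynomial.finSuccEquiv R k (P S (k + 1) (Fin.cons l m)) =
      QQ S l m * Polynomial.C (P S k m) := by
  unfold P QQ
  rw [Fin.prod_univ_succ, Fin.prod_univ_succ]
  simp only [Fin.prod_Ioi_zero, Fin.prod_Ioi_succ, Fin.cons_zero, Fin.cons_succ]
  simp only [map_mul, map_prod]
  have h0 : ∀ (a : MvPolynomial (Fin (k + 1)) R) (p : Polynomial R),
      MvPolynomial.finSuccEquiv R k (Polynomial.aeval a p) =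
        Polynomial.aeval (MvPolynomial.finSuccEquiv R k a) p := by
    intro a p
    exact (Polynomial.aeval_algHom_apply (MvPolynomial.finSuccEquiv R k).toAlgHom a p).symm
  have h1 : ∀ (a b : MvPolynomial (Fin (k + 1)) R) (l m : ℕ),
      MvPolynomial.finSuccEquiv R k (pairP a b l m) =
        pairP (MvPolynomial.finSuccEquiv R k a) (MvPolynomial.finSuccEquiv R k b) l m := by
    intro a b l m
    unfold pairP
    simp only [map_pow, map_add, map_one, map_mul, AlgEquiv.commutes]
  simp only [h0, h1, MvPolynomial.finSuccEquiv_X_zero, MvPolynomial.finSuccEquiv_X_succ,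
    map_pairP_C]
  have h2 : ∀ (a : MvPolynomial (Fin k) R) (p : Polynomial R),
      Polynomial.aeval (Polynomial.C a : Polynomial (MvPolynomial (Fin k) R)) p =
        Polynomial.C (Polynomial.aeval a p) := by
    intro a p
    exact Polynomial.aeval_algHom_apply (Algebra.ofId R R |>.comp (AlgHom.id R R) |> fun _ =>
      (Polynomial.CAlgHom (R := R) (A := MvPolynomial (Fin k) R))) a p
  simp only [h2]
  ring

theorem dat3_S (S : ℕ → Polynomial R) (hS : ∀ l, (S l).coeff 0 = 1) (l k : ℕ) :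
    Dat3 (Polynomial.aeval (Polynomial.X : Polynomial (MvPolynomial (Fin k) R)) (S l))
      (MvPolynomial.C ((S l).coeff 1)) (MvPolynomial.C ((S l).coeff 2)) := by
  have h : Polynomial.aeval (Polynomial.X : Polynomial (MvPolynomial (Fin k) R)) (S l) =
      (S l).map (MvPolynomial.C : R →+* MvPolynomial (Fin k) R) := by
    rw [Polynomial.aeval_X_left_eq_map]
    rfl
  rw [h]
  refine ⟨?_, ?_, ?_⟩
  · rw [Polynomial.coeff_map, hS, map_one]
  · rw [Polynomial.coeff_map]
  · rw [Polynomial.coeff_map]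

theorem coeff_QQ (S : ℕ → Polynomial R) (hS : ∀ l, (S l).coeff 0 = 1) (l k : ℕ) (m : Fin k → ℕ)
    (hm : ∀ i, 1 ≤ m i) :
    Dat3 (QQ S l m) (MvPolynomial.C ((S l).coeff 1) + ∑ j, q1 l m j)
      (MvPolynomial.C ((S l).coeff 2) + (∑ j, q2 l m j + ∑ i, ∑ j ∈ Ioi i, q1 l m i * q1 l m j) +
        MvPolynomial.C ((S l).coeff 1) * ∑ j, q1 l m j) := by
  unfold QQ
  exact (dat3_S S hS l k).mul (Dat3.prodFin k _ _ _ (fun j => dat3_pair l m j (hm j)))

theorem co_cons (S : ℕ → Polynomial R) (l k : ℕ) (m d : Fin k → ℕ) (c : ℕ) :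
    co S (k + 1) (Fin.cons l m) (Fin.cons c d) =
      MvPolynomial.coeff (Finsupp.equivFunOnFinite.symm d) ((QQ S l m).coeff c * P S k m) := by
  unfold co
  rw [cons_eq, ← MvPolynomial.finSuccEquiv_coeff_coeff, finSucc_P, Polynomial.coeff_mul_C]

theorem sub_single {k : ℕ} (d : Fin k → ℕ) (j : Fin k) (e : ℕ) :
    Finsupp.equivFunOnFinite.symm d - Finsupp.single j e =
      Finsupp.equivFunOnFinite.symm (Function.update d j (d j - e)) := by
  ext i
  rw [Finsupp.tsub_apply]
  simp only [Finsupp.equivFunOnFinite_symm_apply_apply]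
  by_cases h : i = j
  · subst h; simp
  · rw [Function.update_of_ne h, Finsupp.single_eq_of_ne (by exact fun h' => h (by simp [h']))]
    rfl

theorem coeff_single_mul (S : ℕ → Polynomial R) (k : ℕ) (m d : Fin k → ℕ) (j : Fin k) (e : ℕ)
    (r : R) : MvPolynomial.coeff (Finsupp.equivFunOnFinite.symm d)
      (MvPolynomial.monomial (Finsupp.single j e) r * P S k m) =
      if e ≤ d j then r * co S k m (Function.update d j (d j - e)) else 0 := by
  rw [MvPolynomial.coeff_monomial_mul', sub_single]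
  have h : (Finsupp.single j e ≤ Finsupp.equivFunOnFinite.symm d) ↔ e ≤ d j := by
    rw [Finsupp.single_le_iff]; simp
  by_cases h' : e ≤ d j
  · rw [if_pos h', if_pos (h.2 h')]; rfl
  · rw [if_neg h', if_neg (fun h'' => h' (h.1 h''))]

theorem x0 : S_x0 := by
  intro S hS l hl k m d hm
  rw [co_cons, (coeff_QQ S hS l k m hm).1, one_mul]
  rfl

theorem q1_term (S : ℕ → Polynomial R) (l k : ℕ) (m d : Fin k → ℕ) (j : Fin k) :
    MvPolynomial.coeff (Finsupp.equivFunOnFinite.symm d) (q1 l m j * P S k m) =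
      (if m j ∣ l ∧ l / m j ≤ d j then
      (m j : R) * x ^ l * co S k m (Function.update d j (d j - l / m j)) else 0) := by
  unfold q1
  by_cases h : m j ∣ l
  · rw [if_pos h, coeff_single_mul]
    simp [h]
  · rw [if_neg h]
    simp [h]

theorem x1 : S_x1 := by
  intro S hS l hl k m d hm
  rw [co_cons, (coeff_QQ S hS l k m hm).2.1, add_mul, MvPolynomial.coeff_add,
    MvPolynomial.coeff_C_mul, Finset.sum_mul, MvPolynomial.coeff_sum]
  congr 1
  exact Finset.sum_congr rfl fun j _ => q1_term S l k m d j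

theorem q2_term (S : ℕ → Polynomial R) (l k : ℕ) (m d : Fin k → ℕ) (j : Fin k) :
    MvPolynomial.coeff (Finsupp.equivFunOnFinite.symm d) (q2 l m j * P S k m) =
      (if m j ∣ l ∧ 2 * l / m j ≤ d j then
      (((m j).choose 2 : ℕ) : R) * x ^ (2 * l) *
        co S k m (Function.update d j (d j - 2 * l / m j)) else 0) +
      (if m j ∣ 2 * l ∧ ¬ m j ∣ l ∧ 2 * l / m j ≤ d j then
      ((m j / 2 : ℕ) : R) * x ^ (2 * l) *
        co S k m (Function.update d j (d j - 2 * l / m j)) else 0) := by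
  unfold q2
  by_cases h : m j ∣ l
  · rw [if_pos h, coeff_single_mul]
    simp [h]
  · by_cases h2 : m j ∣ 2 * l
    · rw [if_neg h, if_pos h2, coeff_single_mul]
      simp [h, h2]
    · rw [if_neg h, if_neg h2]
      simp [h, h2]

theorem q11_term (S : ℕ → Polynomial R) (l k : ℕ) (m d : Fin k → ℕ) (i j : Fin k) (hij : i ≠ j) :
    MvPolynomial.coeff (Finsupp.equivFunOnFinite.symm d) (q1 l m i * q1 l m j * P S k m) =
      (if m i ∣ l ∧ m j ∣ l ∧ l / m i ≤ d i ∧ l / m j ≤ d j then
      (m i : R) * (m j : R) * x ^ (2 * l) *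
        co S k m (Function.update (Function.update d i (d i - l / m i)) j (d j - l / m j))
          else 0) := by
  by_cases h1 : m i ∣ l
  · have hq : q1 l m i = MvPolynomial.monomial (Finsupp.single i (l / m i)) ((m i : R) * x ^ l) := by
      unfold q1; rw [if_pos h1]
    rw [hq, mul_assoc, MvPolynomial.coeff_monomial_mul', sub_single, q1_term]
    have h : (Finsupp.single i (l / m i) ≤ Finsupp.equivFunOnFinite.symm d) ↔ l / m i ≤ d i := by
      rw [Finsupp.single_le_iff]; simp
    rw [Function.update_of_ne hij.symm]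
    by_cases h' : l / m i ≤ d i
    · rw [if_pos (h.2 h')]
      by_cases h2 : m j ∣ l ∧ l / m j ≤ d j
      · rw [if_pos h2, if_pos ⟨h1, h2.1, h', h2.2⟩]
        ring
      · rw [if_neg h2, if_neg (fun hh => h2 ⟨hh.2.1, hh.2.2.2⟩), mul_zero]
    · rw [if_neg (fun hh => h' (h.1 hh)), if_neg (fun hh => h' hh.2.2.1)]
  · have hq : q1 l m i = 0 := by
      unfold q1; rw [if_neg h1]
    rw [hq, zero_mul, zero_mul, if_neg (fun hh => h1 hh.1)]
    simp

theorem x2 : S_x2 := by
  intro S hS l hl k m d hm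
  rw [co_cons, (coeff_QQ S hS l k m hm).2.2]
  have e1 : (MvPolynomial.C ((S l).coeff 2) +
      (∑ j, q2 l m j + ∑ i, ∑ j ∈ Ioi i, q1 l m i * q1 l m j) +
        MvPolynomial.C ((S l).coeff 1) * ∑ j, q1 l m j) * P S k m =
      MvPolynomial.C ((S l).coeff 2) * P S k m +
      MvPolynomial.C ((S l).coeff 1) * (∑ j, q1 l m j * P S k m) +
      ∑ j, q2 l m j * P S k m + ∑ i, ∑ j ∈ Ioi i, q1 l m i * q1 l m j * P S k m := by
    simp only [← Finset.sum_mul]
    ring
  rw [e1]
  simp only [MvPolynomial.coeff_add, MvPolynomial.coeff_C_mul, MvPolynomial.coeff_sum]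
  simp only [q1_term, q2_term]
  rw [Finset.sum_add_distrib]
  have e2 : ∑ i, ∑ j ∈ Ioi i, MvPolynomial.coeff (Finsupp.equivFunOnFinite.symm d)
      (q1 l m i * q1 l m j * P S k m) =
      ∑ i, ∑ j ∈ Ioi i, (if m i ∣ l ∧ m j ∣ l ∧ l / m i ≤ d i ∧ l / m j ≤ d j then
      (m i : R) * (m j : R) * x ^ (2 * l) *
        co S k m (Function.update (Function.update d i (d i - l / m i)) j (d j - l / m j))
          else 0) := by
    refine Finset.sum_congr rfl fun i _ => Finset.sum_congr rfl fun j hj => ?_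
    exact q11_term S l k m d i j (ne_of_lt (Finset.mem_Ioi.1 hj))
  rw [e2]
  have e3 : MvPolynomial.coeff (Finsupp.equivFunOnFinite.symm d) (P S k m) = co S k m d := rfl
  rw [e3]
  ring

end

end Pool.Agent.W101.HI
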