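import Pool.Agent.W871.HI.Stm3

/-!
# HI-COEF: low coefficients of Senv
-/

set_option autoImplicit false

open Finset

namespace Pool.Agent.W101.HI

open Pool.Agent.W871.HI

noncomputable section

/-! ### arithmetic of gcd and lcm -/

theorem ar1 {l m : ℕ} (hm : 1 ≤ m) (h : m ∣ l) :
    Nat.gcd l m = m ∧ m / Nat.gcd l m = 1 ∧ Nat.lcm l m = l ∧ l / Nat.gcd l m = l / m := by
  have h1 : Nat.gcd l m = m := Nat.gcd_eq_right h
  refine ⟨h1, ?_, Nat.lcm_eq_left h, by rw [h1]⟩
  rw [h1]; exact Nat.div_self hm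

theorem ar2 {l m : ℕ} (hm : 1 ≤ m) (h : m ∣ 2 * l) (h' : ¬ m ∣ l) :
    Nat.gcd l m = m / 2 ∧ m / Nat.gcd l m = 2 ∧ Nat.lcm l m = 2 * l ∧
      l / Nat.gcd l m = 2 * l / m ∧ 2 * (m / 2) = m := by
  obtain ⟨a, b, hab, ha, hb⟩ := Nat.exists_coprime l m
  set g := Nat.gcd l m with hg
  have hg0 : 0 < g := Nat.gcd_pos_of_pos_right _ hm
  have hb2 : b ∣ 2 := by
    rw [ha, hb] at h
    have h1 : b * g ∣ (2 * a) * g := by
      have : 2 * (a * g) = 2 * a * g := by ring
      rwa [this] at h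
    have h2 : b ∣ 2 * a := Nat.dvd_of_mul_dvd_mul_right hg0 h1
    exact (Nat.Coprime.dvd_of_dvd_mul_right hab.symm h2)
  have hb1 : b ≠ 1 := by
    intro h1
    apply h'
    rw [ha, hb, h1, one_mul]
    exact Dvd.intro_left a rfl
  have hb3 : b = 2 := by
    have := Nat.le_of_dvd (by norm_num) hb2
    interval_cases b
    · simp at hb2
    · exact absurd rfl hb1
    · rfl
  have e1 : m / 2 = g := by rw [hb, hb3]; omega
  have e2 : m / g = 2 := by
    rw [hb, hb3]; exact Nat.mul_div_cancel _ hg0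
  have e3 : Nat.lcm l m = 2 * l := by
    have h3 : g * Nat.lcm l m = l * m := Nat.gcd_mul_lcm l m
    have h4 : g * (2 * l) = l * m := by rw [hb, hb3]; ring
    exact Nat.eq_of_mul_eq_mul_left hg0 (h3.trans h4.symm)
  have e4 : l / g = 2 * l / m := by
    have h5 : m = 2 * g := by rw [hb, hb3]
    rw [h5, Nat.mul_div_mul_left _ _ (by norm_num)]
  have e5 : m = 2 * g := by rw [hb, hb3]
  exact ⟨e1.symm, e2, e3, e4, by rw [e1]; exact e5.symm⟩

theorem ar3 {l m : ℕ} (hm : 1 ≤ m) (h : ¬ m ∣ 2 * l) : 3 ≤ m / Nat.gcd l m := by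
  obtain ⟨a, b, hab, ha, hb⟩ := Nat.exists_coprime l m
  set g := Nat.gcd l m with hg
  have hg0 : 0 < g := Nat.gcd_pos_of_pos_right _ hm
  have e2 : m / g = b := by
    rw [hb]; exact Nat.mul_div_cancel _ hg0
  rw [e2]
  by_contra hcon
  have hb3 : b = 0 ∨ b = 1 ∨ b = 2 := by omega
  rcases hb3 with h0 | h0 | h0
  · rw [h0, zero_mul] at hb; omega
  · apply h
    rw [ha, hb, h0]
    exact ⟨2 * a, by ring⟩
  · apply h
    rw [ha, hb, h0]
    exact ⟨a, by ring⟩

theorem ar_one {l m : ℕ} (hm : 1 ≤ m) (h : m / Nat.gcd l m = 1) : m ∣ l := by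
  by_contra h1
  by_cases h2 : m ∣ 2 * l
  · have := (ar2 hm h2 h1).2.1
    omega
  · have := ar3 hm h2
    omega

/-! ### low coefficients -/

section dat

theorem coeff_mul_two {A : Type*} [CommRing A] (p q : Polynomial A) :
    (p * q).coeff 2 = p.coeff 0 * q.coeff 2 + p.coeff 1 * q.coeff 1 + p.coeff 2 * q.coeff 0 := by
  rw [Polynomial.coeff_mul, Finset.Nat.sum_antidiagonal_eq_sum_range_succ_mk]
  simp [Finset.sum_range_succ]

variable {A : Type*} [CommRing A] [Algebra ℚ A]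

def Dat (p : Polynomial A) (c g : A) : Prop :=
  p.coeff 0 = 1 ∧ p.coeff 1 = c ∧ p.coeff 2 - (2⁻¹ : ℚ) • p.coeff 1 ^ 2 = g

theorem half_two (a : A) : (2⁻¹ : ℚ) • (2 * a) = a := by
  have : (2 : A) * a = (2 : ℚ) • a := by
    rw [ofNat_smul_eq_nsmul]
    rw [two_mul, two_nsmul]
  rw [this, smul_smul]
  norm_num

theorem Dat.mul {p q : Polynomial A} {c g c' g' : A} (h : Dat p c g) (h' : Dat q c' g') :
    Dat (p * q) (c + c') (g + g') := by
  obtain ⟨h0, h1, h2⟩ := h
  obtain ⟨k0, k1, k2⟩ := h'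
  refine ⟨by rw [Polynomial.mul_coeff_zero, h0, k0, one_mul], ?_, ?_⟩
  · rw [Polynomial.mul_coeff_one, h0, k0, h1, k1]; ring
  · rw [coeff_mul_two, Polynomial.mul_coeff_one, ← h2, ← k2, h0, k0]
    have e1 : (1 * q.coeff 1 + p.coeff 1 * 1) ^ 2 =
        p.coeff 1 ^ 2 + q.coeff 1 ^ 2 + 2 * (p.coeff 1 * q.coeff 1) := by ring
    rw [e1, smul_add, smul_add, half_two]
    ring

theorem Dat.one : Dat (1 : Polynomial A) 0 0 := by
  refine ⟨by simp, by simp [Polynomial.coeff_one], by simp [Polynomial.coeff_one]⟩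

theorem Dat.pow {p : Polynomial A} {c g : A} (h : Dat p c g) (N : ℕ) :
    Dat (p ^ N) (N * c) (N * g) := by
  induction N with
  | zero => simpa using (Dat.one (A := A))
  | succ N ih =>
    rw [pow_succ]
    have := ih.mul h
    convert this using 1 <;> push_cast <;> ring

theorem Dat.prod {ι : Type*} (s : Finset ι) (p : ι → Polynomial A) (c g : ι → A)
    (h : ∀ i ∈ s, Dat (p i) (c i) (g i)) :
    Dat (∏ i ∈ s, p i) (∑ i ∈ s, c i) (∑ i ∈ s, g i) := by
  classical
  induction s using Finset.induction_on with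
  | empty => simpa using (Dat.one (A := A))
  | insert a s ha ih =>
    rw [Finset.prod_insert ha, Finset.sum_insert ha, Finset.sum_insert ha]
    exact (h a (Finset.mem_insert_self a s)).mul
      (ih fun i hi => h i (Finset.mem_insert_of_mem hi))

theorem Dat.lin (r : A) : Dat (1 + Polynomial.C r * Polynomial.X) r (-((2⁻¹ : ℚ) • r ^ 2)) := by
  refine ⟨by simp, by simp [Polynomial.coeff_one], ?_⟩
  simp [Polynomial.coeff_one]

theorem Dat.quad (r : A) : Dat (1 + Polynomial.C r * Polynomial.X ^ 2) 0 r := by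
  refine ⟨by simp, ?_, ?_⟩
  · simp [Polynomial.coeff_one, Polynomial.coeff_X_pow]
  · simp [Polynomial.coeff_one, Polynomial.coeff_X_pow]

theorem Dat.high (r : A) (e : ℕ) (he : 3 ≤ e) :
    Dat (1 + Polynomial.C r * Polynomial.X ^ e) 0 0 := by
  refine ⟨?_, ?_, ?_⟩
  · simp [Polynomial.coeff_one, Polynomial.coeff_X_pow]; omega
  · simp only [Polynomial.coeff_add, Polynomial.coeff_one, Polynomial.coeff_C_mul,
      Polynomial.coeff_X_pow]
    rw [if_neg (by norm_num), if_neg (by omega)]; simp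
  · simp only [Polynomial.coeff_add, Polynomial.coeff_one, Polynomial.coeff_C_mul,
      Polynomial.coeff_X_pow]
    rw [if_neg (by norm_num), if_neg (by omega), if_neg (by omega), if_neg (by omega)]; simp

end dat

theorem dat_self (l : ℕ) : Dat (selfP l) (ev l (x ^ (l / 2)))
    ((((l - 1) / 2 : ℕ) : R) * x ^ l - (2⁻¹ : ℚ) • ev l (x ^ l)) := by
  unfold selfP
  have h1 := (Dat.quad (x ^ l)).pow ((l - 1) / 2)
  by_cases hl : Even l
  · rw [if_pos hl]
    have h2 := h1.mul (Dat.lin (x ^ (l / 2)))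
    have e2 : (x ^ (l / 2)) ^ 2 = x ^ l := by
      rw [← pow_mul]
      congr 1
      obtain ⟨r, hr⟩ := hl
      omega
    rw [e2] at h2
    unfold ev
    rw [if_pos hl, if_pos hl]
    convert h2 using 1 <;> ring
  · rw [if_neg hl, mul_one]
    unfold ev
    rw [if_neg hl, if_neg hl]
    convert h1 using 1 <;> simp

theorem dat_pair (l m : ℕ) (hm : 1 ≤ m) :
    Dat (pairP (Polynomial.X : Polynomial R) 1 l m)
      (if m ∣ l then (m : R) * x ^ l else 0)
      (if m ∣ l then (m : R) * (-((2⁻¹ : ℚ) • (x ^ (2 * l)))) else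
        if m ∣ 2 * l then ((m / 2 : ℕ) : R) * x ^ (2 * l) else 0) := by
  unfold pairP
  rw [Polynomial.algebraMap_eq, one_pow, mul_one]
  by_cases h1 : m ∣ l
  · obtain ⟨a1, a2, a3, a4⟩ := ar1 hm h1
    rw [a2, a3, a1, pow_one, if_pos h1, if_pos h1]
    have := (Dat.lin (x ^ l)).pow m
    convert this using 2
    rw [← pow_mul, mul_comm l 2]
  · by_cases h2 : m ∣ 2 * l
    · obtain ⟨a1, a2, a3, a4, a5⟩ := ar2 hm h2 h1
      rw [a2, a3, a1, if_neg h1, if_neg h1, if_pos h2]
      have := (Dat.quad (x ^ (2 * l))).pow (m / 2)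
      convert this using 1
      simp
    · have a3 := ar3 hm h2
      rw [if_neg h1, if_neg h1, if_neg h2]
      have := (Dat.high (x ^ (Nat.lcm l m)) _ a3).pow (Nat.gcd l m)
      convert this using 1 <;> simp

theorem coef : S_coef := by
  intro k m hm l hl
  have h := (dat_self l).mul (Dat.prod (univ : Finset (Fin k))
    (fun i => pairP (Polynomial.X : Polynomial R) 1 l (m i)) _ _
    (fun i _ => dat_pair l (m i) (hm i)))
  obtain ⟨h0, h1, h2⟩ := h
  refine ⟨h0, ?_, ?_⟩
  · unfold Senv bet fx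
    rw [h1, Nat.cast_sum, Finset.sum_mul, Finset.sum_filter, add_comm]
  · unfold Senv gam
    rw [h2]
    have key : (∑ i, (if m i ∣ l then (m i : R) * (-((2⁻¹ : ℚ) • (x ^ (2 * l)))) else
        if m i ∣ 2 * l then ((m i / 2 : ℕ) : R) * x ^ (2 * l) else 0)) =
        (((sw k m l : ℚ) - fx k m l) / 2) • x ^ (2 * l) := by
      unfold sw fx
      rw [Finset.sum_filter, Finset.sum_filter]
      push_cast
      rw [← Finset.sum_sub_distrib, Finset.sum_div, Finset.sum_smul]
      refine Finset.sum_congr rfl fun i _ => ?_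
      by_cases h1 : m i ∣ l
      · rw [if_pos h1, if_neg (by tauto), if_pos h1]
        rw [Algebra.smul_def, Algebra.smul_def]
        have : ((m i : ℕ) : R) = algebraMap ℚ R (m i : ℚ) := by simp
        rw [this, zero_sub, neg_div, map_neg, div_eq_mul_inv, map_mul]
        ring
      · by_cases h2 : m i ∣ 2 * l
        · obtain ⟨a1, a2, a3, a4, a5⟩ := ar2 (hm i) h2 h1
          rw [if_neg h1, if_pos h2, if_pos ⟨h2, h1⟩, if_neg h1]
          rw [Algebra.smul_def]
          have e : ((m i : ℕ) : ℚ) = 2 * ((m i / 2 : ℕ) : ℚ) := by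
            conv_lhs => rw [← a5]
            push_cast; ring
          have e2 : ((m i : ℚ) - 0) / 2 = ((m i / 2 : ℕ) : ℚ) := by rw [e]; ring
          rw [e2]
          simp
        · rw [if_neg h1, if_neg h2, if_neg (by tauto), if_neg h1]
          simp
    rw [key]
    ring

end

end Pool.Agent.W101.HI
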